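import Pool.Agent.helper84.WZ.SpecA

set_option autoImplicit false

namespace WZ

open Filter

variable {T : Type}

lemma WDB_last_append (l₁ l₂ : List ℕ) (r : ℕ) :
    (l₁ ++ l₂).getLastD r = l₂.getLastD (l₁.getLastD r) := by
  induction l₁ generalizing r with
  | nil => rfl
  | cons a l ih =>
    rw [List.cons_append, List.getLastD_cons, List.getLastD_cons, ih]

lemma WDB_last_mem (l : List ℕ) (r : ℕ) : l.getLastD r ∈ r :: l := by
  induction l generalizing r with
  | nil => simp
  | cons a l ih =>
    rw [List.getLastD_cons]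
    exact List.mem_cons_of_mem _ (ih a)

lemma WDB_main (S : Sys T) (σ : ℕ → T) {β : S.St} {w : List T} (h : S.Der β w) :
    ∀ (r : ℕ) (l : List ℕ), List.Pairwise (· ≤ ·) (r :: l) → l.map σ = w →
      S.DX σ β r (l.getLastD r) (fun q => l.count q) := by
  induction h with
  | nl hn =>
    intro r l _ hl
    rw [List.map_eq_nil_iff] at hl
    subst hl
    exact Sys.DX.nl hn
  | rd hr _ ih =>
    intro r l hp hl
    cases l with
    | nil => simp at hl
    | cons q l =>
      rw [List.map_cons, List.cons.injEq] at hl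
      obtain ⟨h1, h2⟩ := hl
      subst h1
      rw [List.pairwise_cons] at hp
      have h3 := Sys.DX.rd hr (hp.1 q List.mem_cons_self) (ih q l hp.2 h2)
      rw [List.getLastD_cons]
      have e : (fun x => (q :: l).count x) = (fun x => l.count x) + Pi.single q 1 := by
        funext x
        simp only [List.count_cons, Pi.add_apply, Pi.single_apply]
        by_cases hx : x = q
        · subst hx
          simp
        · have hx' : ¬ q = x := fun h => hx h.symm
          simp [hx, hx']
      rw [e]
      exact h3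
  | sp hs _ _ ih1 ih2 =>
    intro r l hp hl
    obtain ⟨l₁, l₂, rfl, h1, h2⟩ := List.map_eq_append_iff.1 hl
    have hp' : List.Pairwise (· ≤ ·) ((r :: l₁) ++ l₂) := hp
    rw [List.pairwise_append] at hp'
    obtain ⟨hp1, hp2, hp3⟩ := hp'
    have h3 := ih1 r l₁ hp1 h1
    have h4 := ih2 (l₁.getLastD r) l₂
      (List.pairwise_cons.2 ⟨fun x hx => hp3 _ (WDB_last_mem l₁ r) x hx, hp2⟩) h2
    have h5 := Sys.DX.sp hs h3 h4
    rw [WDB_last_append]
    have e : (fun x => (l₁ ++ l₂).count x) = (fun x => l₁.count x) + (fun x => l₂.count x) := by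
      funext x
      simp only [List.count_append, Pi.add_apply]
    rw [e]
    exact h5

/-- the list of the runs -/
def WDB_l (e : ℕ → ℕ) (M : ℕ) : List ℕ :=
  (List.range M).flatMap (fun q => List.replicate (e q) q)

lemma WDB_l_succ (e : ℕ → ℕ) (M : ℕ) :
    WDB_l e (M + 1) = WDB_l e M ++ List.replicate (e M) M := by
  unfold WDB_l
  rw [List.range_succ, List.flatMap_append]
  simp

lemma WDB_l_lt (e : ℕ → ℕ) (M : ℕ) : ∀ x ∈ WDB_l e M, x < M := by
  intro x hx
  unfold WDB_l at hx
  rw [List.mem_flatMap] at hx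
  obtain ⟨q, hq, hx⟩ := hx
  rw [List.mem_range] at hq
  rw [List.eq_of_mem_replicate hx]
  exact hq

lemma WDB_l_pair (e : ℕ → ℕ) (M : ℕ) : List.Pairwise (· ≤ ·) (WDB_l e M) := by
  induction M with
  | zero => simp [WDB_l]
  | succ M ih =>
    rw [WDB_l_succ, List.pairwise_append]
    refine ⟨ih, ?_, ?_⟩
    · rw [List.pairwise_replicate]
      exact Or.inr le_rfl
    · intro x hx y hy
      rw [List.eq_of_mem_replicate hy]
      exact (WDB_l_lt e M x hx).le

lemma WDB_l_count (e : ℕ → ℕ) (M q : ℕ) :
    (WDB_l e M).count q = if q < M then e q else 0 := by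
  induction M with
  | zero => simp [WDB_l]
  | succ M ih =>
    rw [WDB_l_succ, List.count_append, ih, List.count_replicate]
    rcases lt_trichotomy q M with h | h | h
    · have h1 : ¬ (M == q) = true := by
        rw [beq_iff_eq]
        omega
      rw [if_pos h, if_neg h1, if_pos (by omega), add_zero]
    · subst h
      rw [if_neg (lt_irrefl _), if_pos (by simp), if_pos (by omega), zero_add]
    · have h1 : ¬ (M == q) = true := by
        rw [beq_iff_eq]
        omega
      rw [if_neg (by omega), if_neg h1, if_neg (by omega)]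

lemma WDB_l_map (σ : ℕ → T) (e : ℕ → ℕ) (M : ℕ) : (WDB_l e M).map σ = wd σ M e := by
  unfold WDB_l wd
  rw [List.map_flatMap]
  simp only [List.map_replicate]

theorem WDB : WDB_stmt := by
  intro T S σ β M e hM he hD
  have h1 := WDB_main S σ hD 0 (WDB_l e M)
    (List.pairwise_cons.2 ⟨fun x _ => Nat.zero_le x, WDB_l_pair e M⟩) (WDB_l_map σ e M)
  have h2 : (fun q => (WDB_l e M).count q) = e := by
    funext q
    rw [WDB_l_count]
    split_ifs with h
    · rfl
    · exact (he q (not_lt.1 h)).symm
  rw [h2] at h1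
  refine ⟨(WDB_l e M).getLastD 0, ?_, h1⟩
  have h3 := WDB_last_mem (WDB_l e M) 0
  rcases List.mem_cons.1 h3 with h | h
  · rw [h]
    exact hM
  · exact WDB_l_lt e M _ h

end WZ
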